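import Mathlib

namespace Pool.Agent.MP_28f2cb_lc.H35

open Filter Polynomial Topology

variable {V : Type} [AddCommGroup V] [Module ℚ V]

/-- A polynomial function of degree at most three, given by symmetric multilinear forms. -/
structure Cub (V : Type) [AddCommGroup V] [Module ℚ V] where
  a : ℚ
  l : V →ₗ[ℚ] ℚ
  q : V →ₗ[ℚ] V →ₗ[ℚ] ℚ
  c : V →ₗ[ℚ] V →ₗ[ℚ] V →ₗ[ℚ] ℚ
  qs : ∀ u v, q u v = q v u
  cs1 : ∀ u v w, c u v w = c v u w
  cs2 : ∀ u v w, c u v w = c u w v

namespace Cub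

variable (C : Cub V)

def F (v : V) : ℚ := C.a + C.l v + C.q v v + C.c v v v

def d (P : V) : V →ₗ[ℚ] ℚ := C.l + (2 : ℚ) • C.q P + (3 : ℚ) • C.c P P

def h (P : V) : V →ₗ[ℚ] V →ₗ[ℚ] ℚ := C.q + (3 : ℚ) • C.c P

theorem d_apply (P v : V) : C.d P v = C.l v + 2 * C.q P v + 3 * C.c P P v := by simp [d]

theorem h_apply (P u v : V) : C.h P u v = C.q u v + 3 * C.c P u v := by simp [h]

theorem hs (P u v : V) : C.h P u v = C.h P v u := by rw [h_apply, h_apply, C.qs, C.cs2]

theorem F_line (P v : V) (t : ℚ) :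
    C.F (P + t • v) = C.F P + t * C.d P v + t ^ 2 * C.h P v v + t ^ 3 * C.c v v v := by
  simp only [F, d_apply, h_apply, map_add, map_smul, LinearMap.add_apply, LinearMap.smul_apply,
    smul_eq_mul]
  rw [C.qs v P, C.cs2 P v P, C.cs1 v P P, C.cs2 P v P, C.cs1 v P v, C.cs2 v v P, C.cs1 v P v]
  ring

theorem F_add (P v : V) : C.F (P + v) = C.F P + C.d P v + C.h P v v + C.c v v v := by
  simpa using C.F_line P v 1

/-- Pull back along an affine map. -/
def pull {U : Type} [AddCommGroup U] [Module ℚ U] (P : V) (f : U →ₗ[ℚ] V) : Cub U where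
  a := C.F P
  l := C.d P ∘ₗ f
  q := (C.h P).compl₁₂ f f
  c := { toFun := fun u => (C.c (f u)).compl₁₂ f f
         map_add' := fun u v => by ext; simp
         map_smul' := fun r v => by ext; simp }
  qs := fun u v => C.hs P _ _
  cs1 := fun u v w => C.cs1 _ _ _
  cs2 := fun u v w => C.cs2 _ _ _

theorem pull_F {U : Type} [AddCommGroup U] [Module ℚ U] (P : V) (f : U →ₗ[ℚ] V) (u : U) :
    (C.pull P f).F u = C.F (P + f u) := by
  rw [F_add]; rfl

end Cub

/-- Functions that are polynomial along every line. -/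
def PL (f : V → ℚ) : Prop := ∀ v w : V, ∃ p : ℚ[X], ∀ s : ℚ, f (v + s • w) = p.eval s

theorem PL.const (a : ℚ) : PL fun _ : V => a := fun _ _ => ⟨C a, fun _ => by simp⟩

theorem PL.add {f g : V → ℚ} (hf : PL f) (hg : PL g) : PL fun v => f v + g v := fun v w => by
  obtain ⟨p, hp⟩ := hf v w
  obtain ⟨r, hr⟩ := hg v w
  exact ⟨p + r, fun s => by simp [hp, hr]⟩

theorem PL.sub {f g : V → ℚ} (hf : PL f) (hg : PL g) : PL fun v => f v - g v := fun v w => by
  obtain ⟨p, hp⟩ := hf v w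
  obtain ⟨r, hr⟩ := hg v w
  exact ⟨p - r, fun s => by simp [hp, hr]⟩

theorem PL.mul {f g : V → ℚ} (hf : PL f) (hg : PL g) : PL fun v => f v * g v := fun v w => by
  obtain ⟨p, hp⟩ := hf v w
  obtain ⟨r, hr⟩ := hg v w
  exact ⟨p * r, fun s => by simp [hp, hr]⟩

theorem PL.lin (l : V →ₗ[ℚ] ℚ) : PL l := fun v w =>
  ⟨C (l v) + C (l w) * X, fun s => by simp; ring⟩

theorem PL.bil (g : V →ₗ[ℚ] V →ₗ[ℚ] ℚ) : PL fun v => g v v := fun v w =>
  ⟨C (g v v) + C (g v w + g w v) * X + C (g w w) * X ^ 2, fun s => by simp; ring⟩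

theorem PL.F (C : Cub V) : PL C.F := fun v w =>
  ⟨Polynomial.C (C.F v) + Polynomial.C (C.d v w) * X + Polynomial.C (C.h v w w) * X ^ 2 +
    Polynomial.C (C.c w w w) * X ^ 3, fun s => by rw [C.F_line]; simp; ring⟩

theorem PL.tri (C : Cub V) : PL fun v => C.c v v v := by
  have := ((PL.F C).sub (PL.const C.a)).sub ((PL.lin C.l).add (PL.bil C.q))
  convert this using 2
  rw [Cub.F]; ring

theorem PL.comp {U : Type} [AddCommGroup U] [Module ℚ U] {f : V → ℚ} (hf : PL f) (L : U →ₗ[ℚ] V) :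
    PL fun u => f (L u) := fun v w => by
  simpa using hf (L v) (L w)

theorem PL.finite {f : V → ℚ} (hf : PL f) {v w : V} {s0 : ℚ} (h : f (v + s0 • w) ≠ 0) :
    {s : ℚ | f (v + s • w) = 0}.Finite := by
  obtain ⟨p, hp⟩ := hf v w
  have : p ≠ 0 := fun h0 => h (by rw [hp, h0, eval_zero])
  exact (finite_setOfPred_isRoot this).subset fun s hs => by simpa [hp] using hs

theorem PL.zero_of_mul {f : V → ℚ} (hf : PL f) {l : V →ₗ[ℚ] ℚ} {w : V} (hw : l w ≠ 0)
    (h : ∀ v, f v * l v = 0) (v : V) : f v = 0 := by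
  by_contra hv
  have h1 := hf.finite (v := v) (w := w) (s0 := 0) (by simpa using hv)
  have h2 := (PL.lin l).finite (v := v) (w := w) (s0 := (1 - l v) / l w) (by
    simp only [map_add, map_smul, smul_eq_mul]; field_simp; simp)
  refine Set.infinite_univ ((h1.union h2).subset fun s _ => ?_)
  exact mul_eq_zero.mp (h _)

/-- Sets of rationals with finite intersection with every bounded interval. -/
def Disc (A : Set ℚ) : Prop := ∀ M : ℚ, (A ∩ {t | |t| ≤ M}).Finite

theorem Disc.shift {A : Set ℚ} (hA : Disc A) (r : ℚ) : Disc {t | r + t ∈ A} := fun M => by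
  refine ((hA (|r| + M)).preimage (add_right_injective r).injOn).subset fun t ht => ⟨ht.1, ?_⟩
  exact (abs_add_le r t).trans (add_le_add le_rfl ht.2)

theorem Disc.ratio {A : Set ℚ} (hA : Disc A) {N G : V → ℚ} (hN : PL N) (hG : PL G)
    (h : ∀ v, G v ≠ 0 → N v / G v ∈ A) : (∀ v, G v = 0) ∨ ∃ m, ∀ v, N v = m * G v := by
  by_cases h0 : ∀ v, G v = 0
  · exact Or.inl h0
  push Not at h0
  obtain ⟨v0, hv0⟩ := h0
  refine Or.inr ⟨N v0 / G v0, fun v => ?_⟩
  obtain ⟨p, hp⟩ := hN v0 (v - v0)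
  obtain ⟨r, hr⟩ := hG v0 (v - v0)
  have p0 : N v0 = p.eval 0 := by simpa using hp 0
  have r0 : G v0 = r.eval 0 := by simpa using hr 0
  have p1 : N v = p.eval 1 := by simpa using hp 1
  have r1 : G v = r.eval 1 := by simpa using hr 1
  have c1 : ContinuousAt (fun s : ℚ => |p.eval s / r.eval s|) 0 :=
    (p.continuous.continuousAt.div r.continuous.continuousAt (r0 ▸ hv0)).abs
  have e1 := (c1.eventually (gt_mem_nhds (lt_add_one _))).and
    (r.continuous.continuousAt.eventually_ne (r0 ▸ hv0))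
  obtain ⟨t, ht⟩ : ∃ t, p - C t * r = 0 := by
    by_contra hne
    push Not at hne
    refine infinite_of_mem_nhds (0 : ℚ) e1 (((hA (|p.eval 0 / r.eval 0| + 1)).biUnion
      fun t _ => finite_setOfPred_isRoot (hne t)).subset fun s hs => ?_)
    refine Set.mem_biUnion (x := p.eval s / r.eval s) ⟨?_, hs.1.le⟩ ?_
    · rw [← hp, ← hr]; exact h _ (by rw [hr]; exact hs.2)
    · have := hs.2
      simp only [Set.mem_ofPred_eq, IsRoot.def, eval_sub, eval_mul, eval_C]
      field_simp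
      ring
  have e : ∀ s, p.eval s = t * r.eval s := fun s => by
    have := congrArg (eval s) ht
    simp only [eval_sub, eval_mul, eval_C, eval_zero] at this
    linarith
  rw [p1, r1, p0, e, e, ← r0]
  field_simp

theorem Disc.no_line {A : Set ℚ} (hA : Disc A) {a b : ℚ} (h : ∀ t : ℚ, a + t * b ∈ A) : b = 0 := by
  have hN : PL fun t : ℚ => a + t * b :=
    (PL.const a).add ((PL.lin (LinearMap.id : ℚ →ₗ[ℚ] ℚ)).mul (PL.const b))
  rcases hA.ratio hN (PL.const 1) (fun t _ => by simpa using h t) with h1 | ⟨m, h1⟩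
  · exact absurd (h1 0) one_ne_zero
  · linarith [h1 0, h1 1]

theorem prop_of_ker {d x : V →ₗ[ℚ] ℚ} (hd : d ≠ 0) (h : ∀ v, d v = 0 → x v = 0) :
    ∃ k : ℚ, x = k • d := by
  obtain ⟨e, he⟩ : ∃ e, d e ≠ 0 := by
    by_contra h0
    push Not at h0
    exact hd (LinearMap.ext h0)
  refine ⟨x e / d e, LinearMap.ext fun v => ?_⟩
  have := h (v - (d v / d e) • e) (by simp; field_simp; ring)
  simp only [map_sub, map_smul, smul_eq_mul, LinearMap.smul_apply] at this ⊢
  field_simp at this ⊢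
  linarith

theorem quadric {A : Set ℚ} (hA : Disc A) (x : V →ₗ[ℚ] ℚ) (a : ℚ) (l : V →ₗ[ℚ] ℚ)
    (g : V →ₗ[ℚ] V →ₗ[ℚ] ℚ) (h : ∀ v, a + l v + g v v = 0 → x v ∈ A) :
    (x '' {v | a + l v + g v v = 0}).Finite := by
  by_cases hx : x = 0
  · exact (Set.finite_singleton 0).subset (by rintro _ ⟨v, -, rfl⟩; simp [hx])
  have key : ∀ Q v (t : ℚ), a + l Q + g Q Q = 0 → a + l (Q + t • v) + g (Q + t • v) (Q + t • v) =
      t * (l + g Q + g.flip Q) v + t ^ 2 * g v v := by
    intro Q v t hQ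
    simp only [map_add, map_smul, LinearMap.add_apply, LinearMap.smul_apply, smul_eq_mul,
      LinearMap.flip_apply]
    linear_combination hQ
  have line : ∀ Q v, a + l Q + g Q Q = 0 → (l + g Q + g.flip Q) v = 0 → g v v = 0 → x v = 0 := by
    intro Q v hQ h1 h2
    refine hA.no_line (a := x Q) fun t => ?_
    simpa using h (Q + t • v) (by rw [key Q v t hQ, h1, h2]; ring)
  by_cases hs : ∃ Q, a + l Q + g Q Q = 0 ∧ l + g Q + g.flip Q ≠ 0
  · obtain ⟨Q, hQ, hd⟩ := hs
    have key := key Q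
    have line := line Q
    generalize l + g Q + g.flip Q = d at *
    obtain ⟨m, hm⟩ : ∃ m, (∀ v, g v v = 0) ∨ ∀ v, d v * x v = m * g v v := by
      rcases hA.ratio (((PL.const (x Q)).mul (PL.bil g)).sub ((PL.lin d).mul (PL.lin x))) (PL.bil g)
        (fun v hv => by
          have := h (Q + (-d v / g v v) • v) (by rw [key _ _ hQ]; field_simp; ring)
          convert this using 1
          simp only [map_add, map_smul, smul_eq_mul]
          field_simp
          ring) with h1 | ⟨m, h1⟩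
      · exact ⟨0, Or.inl h1⟩
      · exact ⟨x Q - m, Or.inr fun v => by linarith [h1 v]⟩
    have h1 : ∀ v, d v = 0 → x v = 0 := by
      intro v hv
      refine line v hQ hv ?_
      rcases hm with h1 | h1
      · exact h1 v
      · by_cases hm0 : m = 0
        · obtain ⟨e, he⟩ : ∃ e, d e ≠ 0 := by
            by_contra h0
            push Not at h0
            exact hd (LinearMap.ext h0)
          exact absurd (LinearMap.ext ((PL.lin x).zero_of_mul he fun v => by
            rw [mul_comm, h1, hm0, zero_mul])) hx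
        · have := h1 v
          rw [hv, zero_mul] at this
          exact (mul_eq_zero.mp this.symm).resolve_left hm0
    refine (Set.toFinite {x Q, x Q - m}).subset ?_
    rintro _ ⟨R, hR, rfl⟩
    have e := key (R - Q) 1 hQ
    rw [one_smul, add_sub_cancel, hR] at e
    by_cases h2 : d (R - Q) = 0
    · left; have := h1 _ h2; rw [map_sub] at this; linarith
    · right
      rcases hm with h3 | h3
      · exact absurd (by linarith [h3 (R - Q)]) h2
      · have h4 := h3 (R - Q)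
        have : d (R - Q) * (x (R - Q) + m) = 0 := by linear_combination h4 - m * e
        have := (mul_eq_zero.mp this).resolve_left h2
        rw [map_sub] at this
        show x R = _
        linarith
  · push Not at hs
    refine Set.Subsingleton.finite ?_
    rintro _ ⟨R, hR, rfl⟩ _ ⟨Q, hQ, rfl⟩
    have e := key Q (R - Q) 1 hQ
    rw [one_smul, add_sub_cancel, hR, hs Q hQ] at e
    have := line Q (R - Q) hQ (by rw [hs Q hQ]; rfl) (by simpa using e.symm)
    rw [map_sub] at this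
    linarith

theorem vertical {A : Set ℚ} (hA : Disc A) (x : V →ₗ[ℚ] ℚ) (C : Cub V)
    (h : ∀ v, C.F v = 0 → x v ∈ A) {e : V} (he : x e = 1) {j : ℚ} (hj : ∀ v, x v = j → C.F v = 0) :
    (x '' {v | C.F v = 0}).Finite := by
  let D := C.pull (j • e) LinearMap.id
  have hD : ∀ v, D.F v = C.F (j • e + v) := C.pull_F _ _
  let p : V →ₗ[ℚ] V := LinearMap.id - x.smulRight e
  have hp : ∀ v, p v = v - x v • e := fun v => rfl
  let l : V →ₗ[ℚ] ℚ := (2 : ℚ) • (D.q e ∘ₗ p) + D.q e e • x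
  let g : V →ₗ[ℚ] V →ₗ[ℚ] ℚ := (3 : ℚ) • (D.c e).compl₁₂ p p +
    x.smulRight ((3 : ℚ) • (D.c e e ∘ₗ p) + D.c e e e • x)
  have key : ∀ v, D.F v = x v * (D.l e + l v + g v v) := by
    intro v
    have h1 : D.F (p v) = 0 := by rw [hD]; exact hj _ (by simp [hp, he])
    have h2 := D.F_line (p v) e (x v)
    rw [h1, hp, sub_add_cancel, ← hp] at h2
    rw [h2, D.d_apply, D.h_apply, D.qs (p v) e, D.cs2 (p v) (p v) e, D.cs1 (p v) e (p v),
      D.cs1 (p v) e e, D.cs2 e (p v) e]
    simp only [l, g, LinearMap.add_apply, LinearMap.smul_apply, LinearMap.comp_apply, smul_eq_mul,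
      LinearMap.compl₁₂_apply, LinearMap.smulRight_apply]
    ring
  have h1 := quadric (hA.shift j) x (D.l e) l g fun v hv => by
    simpa [he] using h (j • e + v) (by rw [← hD, key, hv, mul_zero])
  refine ((h1.insert 0).image (j + ·)).subset ?_
  rintro _ ⟨R, hR, rfl⟩
  refine ⟨x (R - j • e), ?_, by simp [he]⟩
  have := key (R - j • e)
  rw [hD, add_sub_cancel, hR] at this
  rcases mul_eq_zero.mp this.symm with h2 | h2
  · exact Or.inl h2
  · exact Or.inr ⟨_, h2, rfl⟩

theorem singular {A : Set ℚ} (hA : Disc A) (x : V →ₗ[ℚ] ℚ) (C : Cub V)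
    (h : ∀ v, C.F v = 0 → x v ∈ A) {P Q : V} (hP : C.F P = 0) (hQ : C.F Q = 0) (dP : C.d P = 0)
    (dQ : C.d Q = 0) : x P = x Q := by
  have e1 := C.F_line P (Q - P) 1
  have e2 := C.F_line Q (Q - P) (-1)
  rw [one_smul, add_sub_cancel, hP, hQ, dP] at e1
  rw [neg_one_smul, neg_sub, add_sub_cancel, hP, hQ, dQ] at e2
  have e3 : C.h Q (Q - P) (Q - P) = C.h P (Q - P) (Q - P) + 3 * C.c (Q - P) (Q - P) (Q - P) := by
    rw [C.h_apply, C.h_apply, map_sub C.c Q P]
    simp only [LinearMap.sub_apply]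
    ring
  simp only [LinearMap.zero_apply] at e1 e2
  have := hA.no_line (a := x P) (b := x (Q - P)) fun t => by
    have e := C.F_line P (Q - P) t
    rw [hP, dP, LinearMap.zero_apply, show C.c (Q - P) (Q - P) (Q - P) = 0 by linarith,
      show C.h P (Q - P) (Q - P) = 0 by linarith] at e
    simpa [-map_sub] using h _ (e.trans (by ring))
  rw [map_sub] at this
  linarith

end Pool.Agent.MP_28f2cb_lc.H35
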