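import Mathlib

namespace Pool.Agent.MP_28f2cb_lc.H35

open Filter Polynomial

theorem formallySmooth_of_charZero (k L : Type) [Field k] [Field L] [Algebra k L] [CharZero k] :
    Algebra.FormallySmooth k L := by
  obtain ⟨s, hs⟩ := exists_isTranscendenceBasis k L
  have := hs.isAlgebraic_field
  have : CharZero (IntermediateField.adjoin k (Set.range ((↑) : s → L))) :=
    algebraRat.charZero _
  exact Algebra.FormallySmooth.of_algebraicIndependent_of_isSeparable hs.1

/-- A copy of the dual numbers without its standard algebra structures. -/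
def Dual (K : Type) [Field K] : Type := TrivSqZeroExt K K

noncomputable instance (K : Type) [Field K] : CommRing (Dual K) :=
  inferInstanceAs (CommRing (TrivSqZeroExt K K))

theorem exists_deriv {K : Type} [Field K] [CharZero K] {a : K} (ha : Transcendental ℚ a) :
    ∃ D : K →+ K, (∀ x y, D (x * y) = x * D y + y * D x) ∧ D a = 1 := by
  let : Algebra ℚ[X] K := (aeval a).toRingHom.toAlgebra
  have hinj : Function.Injective (algebraMap ℚ[X] K) := transcendental_iff_injective.mp ha
  let : Algebra (FractionRing ℚ[X]) K := (IsFractionRing.lift hinj).toAlgebra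
  have : IsScalarTower ℚ[X] (FractionRing ℚ[X]) K :=
    IsScalarTower.of_algebraMap_eq fun x => (IsFractionRing.lift_algebraMap hinj x).symm
  have : Algebra.FormallySmooth (FractionRing ℚ[X]) K := formallySmooth_of_charZero _ _
  have : Algebra.FormallySmooth ℚ[X] (FractionRing ℚ[X]) := .of_isLocalization (nonZeroDivisors _)
  have : Algebra.FormallySmooth ℚ[X] K := .comp _ (FractionRing ℚ[X]) _
  let φ : ℚ[X] →+* TrivSqZeroExt K K :=
    eval₂RingHom ((TrivSqZeroExt.inlHom K K).comp (algebraMap ℚ K))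
      (TrivSqZeroExt.inl a + TrivSqZeroExt.inr 1)
  let : Algebra ℚ[X] (Dual K) := RingHom.toAlgebra φ
  let g0 : Dual K →+* K := (TrivSqZeroExt.fstHom K K K).toRingHom
  have hg0 : g0.comp φ = algebraMap ℚ[X] K := by
    refine Polynomial.ringHom_ext' (RingHom.ext_rat _ _) ?_
    show g0 (φ X) = aeval a X
    simp only [φ, coe_eval₂RingHom, eval₂_X, aeval_X]
    show TrivSqZeroExt.fst (TrivSqZeroExt.inl a + TrivSqZeroExt.inr (1 : K)) = a
    simp
  let g : Dual K →ₐ[ℚ[X]] K := { g0 with commutes' := fun r => RingHom.congr_fun hg0 r }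
  have hs : Function.Surjective g := fun x => ⟨TrivSqZeroExt.inl x, rfl⟩
  have hn : IsNilpotent (RingHom.ker (g : Dual K →+* K)) := by
    refine ⟨2, ?_⟩
    rw [pow_two, Ideal.zero_eq_bot, eq_bot_iff, Ideal.mul_le]
    intro r hr s hs
    have h1 : TrivSqZeroExt.fst (R := K) (M := K) r = 0 := hr
    have h2 : TrivSqZeroExt.fst (R := K) (M := K) s = 0 := hs
    have : ∀ r s : TrivSqZeroExt K K, r.fst = 0 → s.fst = 0 → r * s = 0 := by
      intro r s h1 h2
      ext <;> simp [h1, h2]
    exact this r s h1 h2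
  let σ := Algebra.FormallySmooth.liftOfSurjective (AlgHom.id ℚ[X] K) g hs hn
  have hσ : ∀ x, TrivSqZeroExt.fst (R := K) (M := K) (σ x) = x := fun x =>
    Algebra.FormallySmooth.liftOfSurjective_apply (AlgHom.id ℚ[X] K) g hs hn x
  refine ⟨{ toFun := fun x => TrivSqZeroExt.snd (R := K) (M := K) (σ x)
            map_zero' := by rw [map_zero]; rfl
            map_add' := fun x y => by rw [map_add]; rfl }, fun x y => ?_, ?_⟩
  · show TrivSqZeroExt.snd (R := K) (M := K) (σ (x * y)) = x * TrivSqZeroExt.snd (R := K) (M := K) (σ y)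
      + y * TrivSqZeroExt.snd (R := K) (M := K) (σ x)
    rw [map_mul]
    have := TrivSqZeroExt.snd_mul (R := K) (M := K) (σ x) (σ y)
    rw [hσ, hσ] at this
    refine this.trans ?_
    simp [mul_comm]
  · have h1 : σ a = φ X := by
      have : a = algebraMap ℚ[X] K X := (aeval_X (R := ℚ) a).symm
      rw [this]
      exact σ.commutes X
    show TrivSqZeroExt.snd (R := K) (M := K) (σ a) = 1
    rw [h1]
    simp [φ]

/-- The ultrafilter used throughout. -/
noncomputable abbrev UU : Filter ℕ := (hyperfilter ℕ : Filter ℕ)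

/-- The ultrapower of the rationals. -/
def Ks : Type := Germ UU ℚ

noncomputable instance : Field Ks := inferInstanceAs (Field (Germ UU ℚ))

/-- The germ of a sequence. -/
noncomputable def gm : (ℕ → ℚ) →+* Ks := Germ.coeRingHom UU

theorem gm_eq {f g : ℕ → ℚ} : gm f = gm g ↔ ∀ᶠ k in UU, f k = g k := Germ.coe_eq

instance : CharZero Ks := ⟨fun m n h => by
  have : gm (m : ℕ → ℚ) = gm (n : ℕ → ℚ) := by rw [map_natCast, map_natCast]; exact h
  obtain ⟨k, hk⟩ := (gm_eq.mp this).exists
  simpa using hk⟩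

theorem gm_const (r : ℚ) : gm (fun _ => r) = (r : Ks) :=
  eq_ratCast (gm.comp (Pi.constRingHom ℕ ℚ)) r

theorem ev_const {α : Type} {f : ℕ → α} {s : Set α} (hs : s.Finite) (h : ∀ᶠ k in UU, f k ∈ s) :
    ∃ r, ∀ᶠ k in UU, f k = r := by
  obtain ⟨r, -, hr⟩ := (Ultrafilter.eventually_exists_mem_iff (f := hyperfilter ℕ)
    (P := fun r k => f k = r) hs).mp (h.mono fun k hk => ⟨_, hk, rfl⟩)
  exact ⟨r, hr⟩

/-- A derivation of the ultrapower. -/
def IsD (D : Ks →+ Ks) : Prop := ∀ x y, D (x * y) = x * D y + y * D x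

theorem IsD.rat {D : Ks →+ Ks} (hD : IsD D) (r : ℚ) : D r = 0 := by
  have h1 : D 1 = 0 := by simpa using hD 1 1
  have : (r : Ks) = r • (1 : Ks) := by simp [Rat.smul_def]
  rw [this, map_rat_smul, h1, smul_zero]

theorem std_of_deriv {f : ℕ → ℚ} (h : ∀ D, IsD D → D (gm f) = 0) : ∃ r, ∀ᶠ k in UU, f k = r := by
  have ha : IsAlgebraic ℚ (gm f) := by
    by_contra ha
    obtain ⟨D, hD, h1⟩ := exists_deriv ha
    exact one_ne_zero (h1.symm.trans (h D hD))
  obtain ⟨p, hp, h0⟩ := ha
  have e : ∀ p : ℚ[X], aeval (gm f) p = gm fun k => p.eval (f k) := by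
    intro p
    induction p using Polynomial.induction_on' with
    | add p q hp hq => rw [map_add, hp, hq, ← map_add]; congr 1; funext k; simp
    | monomial n c =>
      rw [aeval_monomial, eq_ratCast, ← gm_const, ← map_pow, ← map_mul]
      congr 1; funext k; simp
  rw [e, ← map_zero gm, gm_eq] at h0
  exact ev_const (p.rootSet_finite ℚ) (h0.mono fun k hk => by
    rw [mem_rootSet]; exact ⟨hp, by simpa using hk⟩)

end Pool.Agent.MP_28f2cb_lc.H35
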