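import Pool.Agent.MP_28f2cb_lc.H35.Deriv
import Pool.Agent.MP_28f2cb_lc.H35.Cubic

namespace Pool.Agent.MP_28f2cb_lc.H35

open Filter

variable {V : Type} [AddCommGroup V] [Module ℚ V]

theorem gm_add (f g : ℕ → ℚ) : gm (fun k => f k + g k) = gm f + gm g := map_add gm f g

theorem gm_sub (f g : ℕ → ℚ) : gm (fun k => f k - g k) = gm f - gm g := map_sub gm f g

theorem gm_mul (f g : ℕ → ℚ) : gm (fun k => f k * g k) = gm f * gm g := map_mul gm f g

theorem gm_sum {ι : Type} [Fintype ι] (f : ι → ℕ → ℚ) :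
    gm (fun k => ∑ i, f i k) = ∑ i, gm (f i) := by
  rw [← map_sum]; congr 1; funext k; simp

theorem gm_ne {f : ℕ → ℚ} (h : ∀ᶠ k in UU, f k ≠ 0) : gm f ≠ 0 := fun h0 => by
  rw [← map_zero gm, gm_eq] at h0
  obtain ⟨k, h1, h2⟩ := (h.and h0).exists
  exact h1 h2

section
variable {ι : Type} [Fintype ι] (b : Module.Basis ι ℚ V) (P : ℕ → V) (D : Ks →+ Ks)

/-- Pairing of a sequence of linear forms with the derivative of the generic point. -/
noncomputable def E : (ℕ → V →ₗ[ℚ] ℚ) →+ Ks where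
  toFun f := ∑ i, D (gm fun k => b.repr (P k) i) * gm fun k => f k (b i)
  map_zero' := Finset.sum_eq_zero fun i _ => by
    rw [show (gm fun k => (0 : ℕ → V →ₗ[ℚ] ℚ) k (b i)) = 0 from map_zero gm, mul_zero]
  map_add' f g := by
    rw [← Finset.sum_add_distrib]
    exact Finset.sum_congr rfl fun i _ => by rw [← mul_add, ← gm_add]; rfl

theorem E_apply (f : ℕ → V →ₗ[ℚ] ℚ) :
    E b P D f = ∑ i, D (gm fun k => b.repr (P k) i) * gm fun k => f k (b i) := rfl

theorem E_congr {f g : ℕ → V →ₗ[ℚ] ℚ} (h : ∀ᶠ k in UU, f k = g k) : E b P D f = E b P D g :=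
  Finset.sum_congr rfl fun i _ => by
    rw [gm_eq.mpr (h.mono fun k hk => by rw [hk] : ∀ᶠ k in UU, f k (b i) = g k (b i))]

theorem E_smul (μ : ℕ → ℚ) (f : ℕ → V →ₗ[ℚ] ℚ) :
    E b P D (fun k => μ k • f k) = gm μ * E b P D f := by
  rw [E_apply, E_apply, Finset.mul_sum]
  refine Finset.sum_congr rfl fun i _ => ?_
  rw [mul_left_comm, ← gm_mul]; rfl

theorem E_add (f g : ℕ → V →ₗ[ℚ] ℚ) :
    E b P D (fun k => f k + g k) = E b P D f + E b P D g := map_add (E b P D) f g

theorem E_rat (r : ℚ) (f : ℕ → V →ₗ[ℚ] ℚ) : E b P D (fun k => r • f k) = r * E b P D f := by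
  rw [E_smul b P D fun _ => r, gm_const]

theorem E_expand (g : ℕ → V →ₗ[ℚ] V →ₗ[ℚ] ℚ) : E b P D (fun k => g k (P k)) =
    ∑ i, gm (fun k => b.repr (P k) i) * E b P D fun k => g k (b i) := by
  simp only [← E_smul]
  rw [← map_sum]
  congr 1
  funext k
  simpa only [map_sum, map_smul, Finset.sum_apply] using congrArg (g k) (b.sum_repr (P k)).symm

variable {D} (hD : IsD D)
include hD

theorem D_apply (f : ℕ → V →ₗ[ℚ] ℚ) : D (gm fun k => f k (P k)) =
    E b P D f + ∑ i, gm (fun k => b.repr (P k) i) * D (gm fun k => f k (b i)) := by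
  have : (fun k => f k (P k)) = fun k => ∑ i, b.repr (P k) i * f k (b i) := by
    funext k
    simpa only [map_sum, map_smul, smul_eq_mul] using congrArg (f k) (b.sum_repr (P k)).symm
  rw [this, gm_sum, map_sum, E_apply, ← Finset.sum_add_distrib]
  exact Finset.sum_congr rfl fun i _ => by rw [gm_mul, hD]; ring

theorem D_lin (l : V →ₗ[ℚ] ℚ) : D (gm fun k => l (P k)) = E b P D fun _ => l := by
  rw [D_apply b P hD fun _ => l]
  simp only [gm_const, hD.rat, mul_zero, Finset.sum_const_zero, add_zero]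

theorem D_bil (g : V →ₗ[ℚ] V →ₗ[ℚ] ℚ) (hg : ∀ u v, g u v = g v u) :
    D (gm fun k => g (P k) (P k)) = 2 * E b P D fun k => g (P k) := by
  rw [D_apply b P hD fun k => g (P k), two_mul]
  congr 1
  rw [E_expand b P D fun _ => g]
  refine Finset.sum_congr rfl fun i _ => ?_
  rw [← D_lin b P hD]
  simp only [hg (b i)]

theorem D_tri (C : Cub V) :
    D (gm fun k => C.c (P k) (P k) (P k)) = 3 * E b P D fun k => C.c (P k) (P k) := by
  rw [D_apply b P hD fun k => C.c (P k) (P k), show (3 : Ks) = 1 + 2 by norm_num, add_mul, one_mul]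
  congr 1
  rw [E_expand b P D fun k => C.c (P k), Finset.mul_sum]
  refine Finset.sum_congr rfl fun i _ => ?_
  have e1 : (fun k => C.c (P k) (P k) (b i)) = fun k => C.c (b i) (P k) (P k) := by
    funext k; rw [C.cs2, C.cs1]
  have e2 : (fun k => C.c (b i) (P k)) = fun k => C.c (P k) (b i) := by
    funext k; ext w; rw [C.cs1]
  rw [e1, D_bil b P hD _ (C.cs2 _), e2]
  ring

theorem D_rat (r : ℚ) (f : ℕ → ℚ) : D (gm fun k => r * f k) = r * D (gm f) := by
  rw [gm_mul (fun _ => r), gm_const, hD, hD.rat, mul_zero, add_zero]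

theorem E_d (C : Cub V) (hP : ∀ k, C.F (P k) = 0) : E b P D (fun k => C.d (P k)) = 0 := by
  have h1 : D (gm fun k => C.F (P k)) = 0 := by simp only [hP, gm_const, hD.rat]
  simp only [Cub.F, gm_add, map_add, gm_const, hD.rat] at h1
  rw [D_lin b P hD, D_bil b P hD _ C.qs, D_tri b P hD] at h1
  simp only [Cub.d, E_add, E_rat]
  push_cast
  linear_combination h1

theorem D_d (C : Cub V) (w : V) :
    D (gm fun k => C.d (P k) w) = 2 * E b P D fun k => C.h (P k) w := by
  have e1 : (fun k => C.d (P k) w) = fun k => C.l w + 2 * C.q w (P k) + 3 * C.c w (P k) (P k) := by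
    funext k; rw [C.d_apply, C.qs, C.cs2, C.cs1]
  have e2 : (fun k => C.h (P k) w) = fun k => C.q w + (3 : ℚ) • C.c w (P k) := by
    funext k; ext v; simp [C.h_apply, C.cs1 w]
  rw [e1, e2, E_add, E_rat, gm_add, gm_add, map_add, map_add, gm_const, hD.rat, D_rat hD,
    D_rat hD, D_lin b P hD, D_bil b P hD _ (C.cs2 _)]
  push_cast
  ring

omit hD in
include b in
theorem ratio_std (α : ℕ → ℚ) (f : ℕ → V →ₗ[ℚ] ℚ) (h : ∀ w, ∃ r, ∀ᶠ k in UU, f k w = α k * r) :
    ∃ l : V →ₗ[ℚ] ℚ, ∀ᶠ k in UU, f k = α k • l := by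
  choose r hr using h
  refine ⟨b.constr ℚ fun i => r (b i), (eventually_all.mpr fun i => hr (b i)).mono fun k hk => ?_⟩
  exact b.ext fun i => by rw [hk, LinearMap.smul_apply, Module.Basis.constr_basis, smul_eq_mul]

end

/-- A sequence that does not stay in any rational affine hyperplane. -/
def Gen (P : ℕ → V) : Prop := ∀ l : V →ₗ[ℚ] ℚ, l ≠ 0 → ∀ r, ¬∀ᶠ k in UU, l (P k) = r

theorem std [FiniteDimensional ℚ V] {C : Cub V} {P : ℕ → V} (hP : ∀ k, C.F (P k) = 0)
    (hd : ∀ k, C.d (P k) ≠ 0) (hg : Gen P) {μ : ℕ → ℚ} {l : V →ₗ[ℚ] ℚ}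
    (h : ∀ᶠ k in UU, C.d (P k) = μ k • l) : False := by
  let b := Module.finBasis ℚ V
  have hl : l ≠ 0 := by
    obtain ⟨k, hk⟩ := h.exists
    rintro rfl
    exact hd k (by rw [hk, smul_zero])
  have hμ : gm μ ≠ 0 := gm_ne (h.mono fun k hk h0 => hd k (by rw [hk, h0, zero_smul]))
  obtain ⟨r, hr⟩ := std_of_deriv (f := fun k => l (P k)) fun D hD => by
    have := E_d b P hD C hP
    rw [E_congr b P D h, E_smul, ← D_lin b P hD] at this
    exact (mul_eq_zero.mp this).resolve_left hμ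
  exact hg l hl r hr

theorem point_cases {A : Set ℚ} (hA : Disc A) {x : V →ₗ[ℚ] ℚ} {C : Cub V}
    (hS : ∀ v, C.F v = 0 → x v ∈ A) {P : V} (hP : C.F P = 0) :
    (∀ v, C.d P v = 0 → C.c v v v = 0) ∨ (∀ v, C.d P v = 0 → x v = 0) ∨
      (∀ u v, C.d P u = 0 → C.d P v = 0 → C.h P u v = 0) ∨
      ∃ R0, C.d P (R0 - P) = 0 ∧ ∀ R, x R = x R0 → C.d P (R - P) = 0 → C.F R = 0 := by
  let T := LinearMap.ker (C.d P)
  have p1 : PL fun v : T => C.c v v v := (PL.tri C).comp T.subtype
  have p2 : PL fun v : T => C.h P v v := (PL.bil (C.h P)).comp T.subtype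
  rcases hA.ratio (((PL.const (x P)).mul p1).sub (p2.mul (PL.lin (x ∘ₗ T.subtype)))) p1
    (fun v hv => by
      have h1 : C.d P v = 0 := v.2
      have := hS (P + (-C.h P v v / C.c v v v) • (v : V)) (by
        rw [C.F_line, hP, h1]; field_simp; ring)
      convert this using 1
      simp only [map_add, map_smul, smul_eq_mul, LinearMap.comp_apply, Submodule.subtype_apply]
      field_simp
      ring) with h1 | ⟨m, h1⟩
  · exact Or.inl fun v hv => h1 ⟨v, hv⟩
  by_cases hx : ∀ v, C.d P v = 0 → x v = 0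
  · exact Or.inr (Or.inl hx)
  push Not at hx
  obtain ⟨w, hw, hxw⟩ := hx
  have h2 : ∀ v, C.d P v = 0 → x P * C.c v v v - C.h P v v * x v = m * C.c v v v :=
    fun v hv => h1 ⟨v, hv⟩
  refine Or.inr (Or.inr ?_)
  by_cases hm : x P = m
  · have h3 : ∀ v, C.d P v = 0 → C.h P v v = 0 := fun v hv =>
      p2.zero_of_mul (l := x ∘ₗ T.subtype) (w := ⟨w, hw⟩) hxw (fun v => by
        have := h2 v v.2
        rw [hm] at this
        show C.h P v v * x v = 0
        linarith) ⟨v, hv⟩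
    refine Or.inl fun u v hu hv => ?_
    have := h3 (u + v) (by rw [map_add, hu, hv, add_zero])
    simp only [map_add, LinearMap.add_apply, h3 u hu, h3 v hv, C.hs P v u] at this
    linarith
  · refine Or.inr ⟨P + ((m - x P) / x w) • w, by simp [hw], fun R hR hd => ?_⟩
    have e1 : x (R - P) = m - x P := by
      rw [map_sub, hR, map_add, map_smul, smul_eq_mul]; field_simp; ring
    have e2 := h2 _ hd
    have e3 := C.F_add P (R - P)
    rw [add_sub_cancel, hP, hd] at e3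
    rw [e1] at e2
    have : (x P - m) * C.F R = 0 := by rw [e3]; linear_combination e2
    exact (mul_eq_zero.mp this).resolve_left (sub_ne_zero.mpr hm)

theorem not_ev_const {f : ℕ → ℚ} (hf : Function.Injective f) (r : ℚ) : ¬∀ᶠ k in UU, f k = r :=
  ((Set.finite_singleton r).preimage hf.injOn).notMem_hyperfilter

theorem exists_seq {A : Set ℚ} (hA : Disc A) {x : V →ₗ[ℚ] ℚ} {C : Cub V}
    (hS : ∀ v, C.F v = 0 → x v ∈ A)
    (hmin : ∀ l : V →ₗ[ℚ] ℚ, l ≠ 0 → ∀ r, (x '' {v | C.F v = 0 ∧ l v = r}).Finite)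
    (hi : (x '' {v | C.F v = 0}).Infinite) : ∃ P : ℕ → V, (∀ k, C.F (P k) = 0) ∧
      (∀ k, C.d (P k) ≠ 0) ∧ Function.Injective (fun k => x (P k)) ∧ Gen P := by
  have h1 : (x '' {v | C.F v = 0 ∧ C.d v = 0}).Finite := Set.Subsingleton.finite (by
    rintro _ ⟨P, hP, rfl⟩ _ ⟨Q, hQ, rfl⟩
    exact singular hA x C hS hP.1 hQ.1 hP.2 hQ.2)
  have h2 : (x '' {v | C.F v = 0 ∧ C.d v ≠ 0}).Infinite := fun h2 => hi ((h1.union h2).subset (by
    rintro _ ⟨P, hP, rfl⟩
    by_cases h : C.d P = 0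
    · exact Or.inl ⟨P, ⟨hP, h⟩, rfl⟩
    · exact Or.inr ⟨P, ⟨hP, h⟩, rfl⟩))
  choose P hP hx using fun k => (h2.natEmbedding _ k).2
  have hinj : Function.Injective fun k => x (P k) := fun i j hij =>
    (h2.natEmbedding _).injective (Subtype.ext (by rw [← hx, ← hx]; exact hij))
  refine ⟨P, fun k => (hP k).1, fun k => (hP k).2, hinj, fun l hl r h => ?_⟩
  obtain ⟨s, hs⟩ := ev_const (f := fun k => x (P k)) (hmin l hl r)
    (h.mono fun k hk => ⟨P k, ⟨(hP k).1, hk⟩, rfl⟩)
  exact not_ev_const hinj s hs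

theorem ev_root {f : V → ℚ} (hf : PL f) {v w : V} (hv : f v ≠ 0) {α β : ℕ → ℚ}
    (h : ∀ᶠ k in UU, α k ≠ 0 ∧ (β k ≠ 0 → f (v + (-α k / β k) • w) = 0)) :
    ∃ r, ∀ᶠ k in UU, β k = α k * r := by
  have h1 := hf.finite (v := v) (w := w) (s0 := 0) (by simpa using hv)
  obtain ⟨s, hs⟩ := ev_const (f := fun k => -α k / β k) (h1.insert 0) (h.mono fun k hk => by
    by_cases h0 : β k = 0
    · left; simp [h0]
    · exact Or.inr (hk.2 h0))
  refine ⟨-s⁻¹, (h.and hs).mono fun k hk => ?_⟩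
  have := hk.1.1
  rw [← hk.2]
  field_simp

theorem generic [FiniteDimensional ℚ V] {A : Set ℚ} (hA : Disc A) {x : V →ₗ[ℚ] ℚ} {C : Cub V}
    (hS : ∀ v, C.F v = 0 → x v ∈ A)
    (hmin : ∀ l : V →ₗ[ℚ] ℚ, l ≠ 0 → ∀ r, (x '' {v | C.F v = 0 ∧ l v = r}).Finite)
    (hvert : ∀ j, ∃ v, x v = j ∧ C.F v ≠ 0) {v0 : V} (hc : C.c v0 v0 v0 ≠ 0)
    (hdim : ∀ d : V →ₗ[ℚ] ℚ, ∃ u, u ≠ 0 ∧ x u = 0 ∧ d u = 0) {e : V} (he : x e = 1) :
    (x '' {v | C.F v = 0}).Finite := by
  by_contra hi
  obtain ⟨P, hP, hd, hinj, hg⟩ := exists_seq hA hS hmin hi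
  let b := Module.finBasis ℚ V
  have hx : x ≠ 0 := fun h => by simp [h] at he
  have cs := Eventually.of_forall (f := UU) fun k => point_cases hA hS (hP k)
  rw [Ultrafilter.eventually_or, Ultrafilter.eventually_or, Ultrafilter.eventually_or] at cs
  rcases cs with h | h | h | h
  · obtain ⟨l, hl⟩ := ratio_std b (fun k => C.d (P k) v0) (fun k => C.d (P k)) fun w =>
      ev_root (PL.tri C) hc (w := w) (h.mono fun k hk => ⟨fun h0 => hc (hk _ h0), fun h0 =>
        hk _ (by simp only [map_add, map_smul, smul_eq_mul]; field_simp; ring)⟩)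
    exact std hP hd hg hl
  · have : ∀ᶠ k in UU, ∃ μ : ℚ, C.d (P k) = μ • x := h.mono fun k hk => by
      obtain ⟨κ, hκ⟩ := prop_of_ker (hd k) hk
      have : κ ≠ 0 := fun h0 => hx (by rw [hκ, h0, zero_smul])
      exact ⟨κ⁻¹, by rw [hκ, smul_smul, inv_mul_cancel₀ this, one_smul]⟩
    obtain ⟨μ, hμ⟩ := this.choice
    exact std hP hd hg hμ
  · obtain ⟨i, hi⟩ : ∃ i, ∀ᶠ k in UU, C.d (P k) (b i) ≠ 0 := by
      by_contra h0
      push Not at h0
      obtain ⟨k, hk⟩ := (eventually_all.mpr h0).exists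
      exact hd k (b.ext hk)
    obtain ⟨l, hl⟩ := ratio_std b (fun k => C.d (P k) (b i)) (fun k => C.d (P k)) fun w => by
      obtain ⟨r, hr⟩ := std_of_deriv (f := fun k => C.d (P k) w / C.d (P k) (b i)) fun D hD => by
        set ρ : ℕ → ℚ := fun k => C.d (P k) w / C.d (P k) (b i) with hρ
        have e1 : gm (fun k => C.d (P k) w) = gm ρ * gm fun k => C.d (P k) (b i) := by
          rw [← gm_mul, gm_eq]
          exact hi.mono fun k hk => (div_mul_cancel₀ _ hk).symm
        have e2 := congrArg D e1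
        rw [hD, D_d b P hD, D_d b P hD] at e2
        have e3 : ∀ᶠ k in UU, ∃ κ : ℚ, C.h (P k) w = κ • C.d (P k) + ρ k • C.h (P k) (b i) :=
          (h.and hi).mono fun k hk => by
            obtain ⟨κ, hκ⟩ := prop_of_ker (x := C.h (P k) (w - ρ k • b i)) (hd k) fun v hv =>
              hk.1 _ _ (by
                rw [map_sub, map_smul, smul_eq_mul, div_mul_cancel₀ _ hk.2, sub_self]) hv
            exact ⟨κ, by rw [← hκ]; simp⟩
        obtain ⟨κ, hκ⟩ := e3.choice
        rw [E_congr b P D hκ, E_add, E_smul, E_smul, E_d b P hD C hP] at e2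
        exact (mul_eq_zero.mp (by linear_combination -e2)).resolve_left (gm_ne hi)
      exact ⟨r, (hr.and hi).mono fun k hk => by rw [← hk.1]; have := hk.2; field_simp⟩
    exact std hP hd hg hl
  · obtain ⟨R, hR⟩ := h.choice
    choose u hu0 hux hud using fun k => hdim (C.d (P k))
    obtain ⟨i, hi⟩ : ∃ i, ∀ᶠ k in UU, b.coord i (u k) ≠ 0 := by
      by_contra h0
      push Not at h0
      obtain ⟨k, hk⟩ := (eventually_all.mpr h0).exists
      exact hu0 k (b.ext_elem fun i => by simpa using hk i)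
    have hb : b.coord i ≠ 0 := by
      obtain ⟨k, hk⟩ := hi.exists
      exact fun h0 => hk (by rw [h0]; rfl)
    obtain ⟨j, hj⟩ := ev_const (f := fun k => x (R k)) (hmin _ hb 0) ((hR.and hi).mono fun k hk => by
      have h1 : x (R k - (b.coord i (R k) / b.coord i (u k)) • u k) = x (R k) := by simp [hux]
      refine ⟨_, ⟨hk.1.2 _ h1 ?_, ?_⟩, h1⟩
      · rw [sub_right_comm, map_sub, hk.1.1, map_smul, hud]; simp
      · rw [map_sub, map_smul, smul_eq_mul, div_mul_cancel₀ _ hk.2, sub_self])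
    obtain ⟨R0, hj0, hR0⟩ := hvert j
    let p : V →ₗ[ℚ] V := LinearMap.id - x.smulRight e
    have hp : ∀ v, p v = v - x v • e := fun v => rfl
    have hα : ∀ᶠ k in UU, C.d (P k) (R0 - P k) ≠ 0 :=
      (hR.and hj).mono fun k hk h0 => hR0 (hk.1.2 _ (hj0.trans hk.2.symm) h0)
    obtain ⟨l, hl⟩ := ratio_std b (fun k => C.d (P k) (R0 - P k)) (fun k => C.d (P k) ∘ₗ p) fun w =>
      ev_root (PL.F C) hR0 (w := p w) ((hα.and (hR.and hj)).mono fun k hk => ⟨hk.1, fun h0 =>
        hk.2.1.2 _ (by simp [hp, he, hj0, hk.2.2]) (by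
          rw [add_sub_right_comm, map_add, map_smul, smul_eq_mul, LinearMap.comp_apply] at *
          field_simp; ring)⟩)
    have hl2 : ∀ᶠ k in UU, C.d (P k) = C.d (P k) (R0 - P k) • l + C.d (P k) e • x :=
      hl.mono fun k hk => by
        rw [← hk]; ext w; simp [hp, mul_comm]
    have hX : ∀ᶠ k in UU, x (P k) - j ≠ 0 :=
      (Ultrafilter.eventually_not.mpr (not_ev_const hinj j)).mono fun k hk => sub_ne_zero.mpr hk
    have hY : ∀ᶠ k in UU, C.d (P k) (R0 - P k) * (1 - l R0 + l (P k)) +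
        C.d (P k) e * (x (P k) - j) = 0 := hl2.mono fun k hk => by
      have := LinearMap.congr_fun hk (R0 - P k)
      simp only [LinearMap.add_apply, LinearMap.smul_apply, smul_eq_mul, map_sub l, map_sub x,
        hj0] at this
      linear_combination this
    obtain ⟨r, hr⟩ := std_of_deriv (f := fun k => (1 - l R0 + l (P k)) / (x (P k) - j))
      fun D hD => by
        set ρ : ℕ → ℚ := fun k => (1 - l R0 + l (P k)) / (x (P k) - j) with hρ
        have e1 : gm (fun k => 1 - l R0 + l (P k)) = gm ρ * gm fun k => x (P k) - j := by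
          rw [← gm_mul, gm_eq]
          exact hX.mono fun k hk => (div_mul_cancel₀ _ hk).symm
        have e2 := congrArg D e1
        rw [hD, gm_add, gm_const, map_add, hD.rat, gm_sub (fun k => x (P k)), gm_const, map_sub,
          hD.rat, ← gm_const j, ← gm_sub, D_lin b P hD, D_lin b P hD] at e2
        have e3 := E_d b P hD C hP
        rw [E_congr b P D hl2, E_add, E_smul, E_smul] at e3
        have e4 := gm_eq.mpr hY
        rw [gm_add, gm_mul, gm_mul, e1, show (gm fun _ => (0 : ℚ)) = 0 from map_zero gm] at e4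
        have e5 : gm (fun k => C.d (P k) (R0 - P k)) * gm ρ + gm (fun k => C.d (P k) e) = 0 :=
          (mul_eq_zero.mp (by linear_combination e4)).resolve_right (gm_ne hX)
        refine (mul_eq_zero.mp ?_).resolve_left (mul_ne_zero (gm_ne hα) (gm_ne hX))
        linear_combination e3 - gm (fun k => C.d (P k) (R0 - P k)) * e2 -
          (E b P D fun _ => x) * e5
    by_cases h0 : l - r • x = 0
    · refine std hP hd hg (μ := fun k => C.d (P k) (R0 - P k) * r + C.d (P k) e) (l := x)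
        (hl2.mono fun k hk => hk.trans ?_)
      rw [sub_eq_zero.mp h0, add_smul, smul_smul]
    · refine hg _ h0 (l R0 - 1 - r * j) ((hr.and hX).mono fun k hk => ?_)
      have := (div_eq_iff hk.2).mp hk.1
      simp only [LinearMap.sub_apply, LinearMap.smul_apply, smul_eq_mul]
      linear_combination this

end Pool.Agent.MP_28f2cb_lc.H35
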