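import Pool.Agent.MP_28f2cb_lc.H35.Plane

namespace Pool.Agent.MP_28f2cb_lc.H35

theorem cubic_finite (n : ℕ) : ∀ (V : Type) [AddCommGroup V] [Module ℚ V] [FiniteDimensional ℚ V],
    Module.finrank ℚ V = n → ∀ (A : Set ℚ), Disc A → ∀ (x : V →ₗ[ℚ] ℚ) (C : Cub V),
      (∀ v, C.F v = 0 → x v ∈ A) → (x '' {v | C.F v = 0}).Finite := by
  induction n using Nat.strong_induction_on with
  | _ n ih =>
  intro V _ _ _ hn A hA x C hS
  by_cases hx : ∀ v, x v = 0
  · exact (Set.finite_singleton 0).subset (by rintro _ ⟨v, -, rfl⟩; exact hx v)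
  push Not at hx
  obtain ⟨e, he⟩ : ∃ e, x e = 1 := by
    obtain ⟨v, hv⟩ := hx
    exact ⟨(x v)⁻¹ • v, by simp [hv]⟩
  by_cases hvert : ∃ j, ∀ v, x v = j → C.F v = 0
  · obtain ⟨j, hj⟩ := hvert
    exact vertical hA x C hS he hj
  push Not at hvert
  by_cases hc : ∀ v, C.c v v v = 0
  · have : C.F = fun v => C.a + C.l v + C.q v v := funext fun v => by rw [Cub.F, hc, add_zero]
    rw [this] at hS ⊢
    exact quadric hA x C.a C.l C.q hS
  push Not at hc
  obtain ⟨v0, hc⟩ := hc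
  have hmin : ∀ l : V →ₗ[ℚ] ℚ, l ≠ 0 → ∀ r, (x '' {v | C.F v = 0 ∧ l v = r}).Finite := by
    intro l hl r
    rcases Set.eq_empty_or_nonempty {v | C.F v = 0 ∧ l v = r} with h | ⟨P, -, hP⟩
    · rw [h, Set.image_empty]; exact Set.finite_empty
    have h1 := ih _ (hn ▸ Submodule.finrank_lt (mt LinearMap.ker_eq_top.mp hl)) _ rfl _
      (hA.shift (x P)) (x ∘ₗ (LinearMap.ker l).subtype) (C.pull P (LinearMap.ker l).subtype)
      fun v hv => by
        rw [Cub.pull_F] at hv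
        simpa using hS _ hv
    refine (h1.image (x P + ·)).subset ?_
    rintro _ ⟨v, hv, rfl⟩
    refine ⟨_, ⟨⟨v - P, by rw [LinearMap.mem_ker, map_sub, hv.2, hP, sub_self]⟩, ?_, rfl⟩, by simp⟩
    show Cub.F _ _ = 0
    rw [Cub.pull_F]
    simpa using hv.1
  by_cases hdim : ∀ d : V →ₗ[ℚ] ℚ, ∃ u, u ≠ 0 ∧ x u = 0 ∧ d u = 0
  · exact generic hA hS hmin hvert hc hdim he
  push Not at hdim
  obtain ⟨d, hd⟩ := hdim
  by_cases hk : ∀ u, x u = 0 → u = 0
  · obtain ⟨v, hv, hF⟩ := hvert 0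
    rw [hk v hv] at hF
    refine ((PL.F C).finite (v := 0) (w := e) (s0 := 0) (by simpa using hF)).subset ?_
    rintro _ ⟨v, hv, rfl⟩
    show C.F _ = 0
    rwa [zero_add, ← sub_eq_zero.mp (hk (v - x v • e) (by simp [he]))]
  push Not at hk
  obtain ⟨f, hf, hf0⟩ := hk
  have hdf := hd f hf0 hf
  refine plane hA hS hmin hvert hc (f := (d f)⁻¹ • f) (η := d - d e • x) he (by simp [hf])
    (by simp [hf, hdf]) (by simp [he]) fun v => ?_
  rw [← sub_eq_zero]
  by_contra h0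
  refine hd _ h0 (by simp [he, hf]) ?_
  simp [hdf]
  ring

variable {V : Type} [AddCommGroup V] [Module ℚ V]

/-- Functions given by a cubic datum. -/
def IsCub (f : V → ℚ) : Prop := ∃ C : Cub V, ∀ v, C.F v = f v

theorem IsCub.add {f g : V → ℚ} (hf : IsCub f) (hg : IsCub g) : IsCub fun v => f v + g v := by
  obtain ⟨C, hC⟩ := hf
  obtain ⟨D, hD⟩ := hg
  refine ⟨⟨C.a + D.a, C.l + D.l, C.q + D.q, C.c + D.c, fun u v => ?_, fun u v w => ?_,
    fun u v w => ?_⟩, fun v => ?_⟩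
  · simp [C.qs u, D.qs u]
  · simp [C.cs1 u, D.cs1 u]
  · simp [C.cs2 u v, D.cs2 u v]
  · beta_reduce
    rw [← hC, ← hD]
    simp only [Cub.F, LinearMap.add_apply]
    ring

theorem IsCub.zero : IsCub fun _ : V => (0 : ℚ) :=
  ⟨⟨0, 0, 0, 0, fun _ _ => rfl, fun _ _ _ => rfl, fun _ _ _ => rfl⟩, fun _ => by simp [Cub.F]⟩

theorem IsCub.list (a : ℚ) (L : List (V →ₗ[ℚ] ℚ)) (hL : L.length ≤ 3) :
    IsCub fun v => a * (L.map fun l => l v).prod := by
  match L, hL with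
  | [], _ => exact ⟨⟨a, 0, 0, 0, fun _ _ => rfl, fun _ _ _ => rfl, fun _ _ _ => rfl⟩,
      fun _ => by simp [Cub.F]⟩
  | [l], _ => exact ⟨⟨0, a • l, 0, 0, fun _ _ => rfl, fun _ _ _ => rfl, fun _ _ _ => rfl⟩,
      fun _ => by simp [Cub.F]⟩
  | [l, m], _ => exact ⟨⟨0, 0, (a / 2) • (l.smulRight m + m.smulRight l), 0,
      fun _ _ => by simp; ring, fun _ _ _ => rfl, fun _ _ _ => rfl⟩,
      fun _ => by simp [Cub.F]; ring⟩
  | [l, m, n], _ => exact ⟨⟨0, 0, 0, (a / 6) • (l.smulRight (m.smulRight n + n.smulRight m) +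
      m.smulRight (l.smulRight n + n.smulRight l) + n.smulRight (l.smulRight m + m.smulRight l)),
      fun _ _ => rfl, fun _ _ _ => by simp; ring, fun _ _ _ => by simp; ring⟩,
      fun _ => by simp [Cub.F]; ring⟩

theorem isCub_eval {σ : Type} (P : MvPolynomial σ ℚ) (hP : P.totalDegree ≤ 3) :
    IsCub fun v : σ → ℚ => MvPolynomial.eval v P := by
  classical
  simp only [MvPolynomial.eval_eq]
  refine Finset.induction_on' P.support (by simpa using IsCub.zero) fun {s} t hs _ hst ih => ?_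
  simp only [Finset.sum_insert hst]
  refine IsCub.add ?_ ih
  have := IsCub.list (V := σ → ℚ) (P.coeff s) (s.toMultiset.toList.map LinearMap.proj) (by
    rw [List.length_map, Multiset.length_toList, Finsupp.card_toMultiset]
    exact (MvPolynomial.le_totalDegree hs).trans hP)
  obtain ⟨C, hC⟩ := this
  refine ⟨C, fun v => (hC v).trans ?_⟩
  beta_reduce
  congr 1
  rw [List.map_map, ← Multiset.prod_coe, ← Multiset.map_coe, Multiset.coe_toList,
    Finsupp.toMultiset_map, Finsupp.prod_toMultiset, Finsupp.prod_mapDomain_index (by simp)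
      fun _ _ _ => pow_add _ _ _]
  rfl

theorem main (n : ℕ) (P : MvPolynomial (Fin (n + 1)) ℚ) (hP : P.totalDegree ≤ 3) (A : Set ℚ)
    (hA : ∀ q, q ∈ A ↔ ∃ y : Fin n → ℚ, MvPolynomial.eval (Fin.cons q y) P = 0)
    (hi : A.Infinite) : ∃ M : ℚ, (A ∩ {t | |t| ≤ M}).Infinite := by
  by_contra h
  push Not at h
  obtain ⟨C, hC⟩ := isCub_eval P hP
  refine hi ((cubic_finite _ _ rfl A h (LinearMap.proj 0) C fun v hv => ?_).subset fun q hq => ?_)
  · exact (hA _).mpr ⟨Fin.tail v, by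
      rw [LinearMap.proj_apply, Fin.cons_self_tail]; exact (hC v).symm.trans hv⟩
  · obtain ⟨y, hy⟩ := (hA q).mp hq
    exact ⟨Fin.cons q y, (hC _).trans hy, rfl⟩

end Pool.Agent.MP_28f2cb_lc.H35
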