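import Pool.Agent.MP_28f2cb_lc.H35.Generic

namespace Pool.Agent.MP_28f2cb_lc.H35

open Filter Topology

variable {V : Type} [AddCommGroup V] [Module ℚ V]

theorem exists_lim (g : ℕ → ℝ) (hg : ∀ k, |g k| ≤ 1) : ∃ α, Tendsto g UU (𝓝 α) := by
  obtain ⟨α, -, h⟩ := (isCompact_Icc (a := (-1 : ℝ)) (b := 1)).ultrafilter_le_nhds
    (Ultrafilter.map g (hyperfilter ℕ)) (by
      rw [le_principal_iff]
      exact Eventually.of_forall (f := UU) fun k => abs_le.mp (hg k))
  exact ⟨α, h⟩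

theorem rat_rel {a b c d : ℚ} {α β : ℝ} (h1 : a * α ^ 2 + 2 * b * α * β + c * β ^ 2 = 0)
    (h2 : b * α ^ 2 + 2 * c * α * β + d * β ^ 2 = 0) (h : ¬(a = 0 ∧ b = 0 ∧ c = 0 ∧ d = 0)) :
    ∃ p r : ℚ, (p ≠ 0 ∨ r ≠ 0) ∧ p * α + r * β = 0 := by
  by_contra h0
  have H : ∀ p r : ℚ, p * α + r * β = 0 → p = 0 ∧ r = 0 := fun p r hpr => by
    by_contra h3
    exact h0 ⟨p, r, not_and_or.mp h3, hpr⟩
  have hα : α ≠ 0 := fun h3 => by simpa using H 1 0 (by simp [h3])
  have hβ : β ≠ 0 := fun h3 => by simpa using H 0 1 (by simp [h3])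
  obtain ⟨e1, -⟩ := H (2 * (b ^ 2 - a * c)) (b * c - a * d) (mul_left_cancel₀ hβ (by
    push_cast; linear_combination b * h1 - a * h2))
  obtain ⟨-, e2⟩ := H (a * d - b * c) (2 * (b * d - c ^ 2)) (mul_left_cancel₀ hα (by
    push_cast; linear_combination d * h1 - c * h2))
  have e1' : (2 * (b ^ 2 - a * c) : ℝ) = 0 := by exact_mod_cast e1
  obtain ⟨ha, hb⟩ := H a b (pow_eq_zero_iff two_ne_zero |>.mp (by
    linear_combination a * h1 + β ^ 2 / 2 * e1'))
  have hc : c = 0 := pow_eq_zero_iff two_ne_zero |>.mp (by rw [hb] at e2; linarith)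
  obtain ⟨-, hd⟩ := H 0 d (mul_left_cancel₀ hβ (by
    rw [hb, hc] at h2; push_cast at h2 ⊢; linear_combination h2))
  exact h ⟨ha, hb, hc, hd⟩

theorem plane {A : Set ℚ} (hA : Disc A) {x : V →ₗ[ℚ] ℚ} {C : Cub V}
    (hS : ∀ v, C.F v = 0 → x v ∈ A)
    (hmin : ∀ l : V →ₗ[ℚ] ℚ, l ≠ 0 → ∀ r, (x '' {v | C.F v = 0 ∧ l v = r}).Finite)
    (hvert : ∀ j, ∃ v, x v = j ∧ C.F v ≠ 0) {v0 : V} (hc : C.c v0 v0 v0 ≠ 0)
    {e f : V} {η : V →ₗ[ℚ] ℚ} (he : x e = 1) (hf : x f = 0) (hη : η f = 1) (hη0 : η e = 0)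
    (hdec : ∀ v, v = x v • e + η v • f) : (x '' {v | C.F v = 0}).Finite := by
  by_contra hi
  obtain ⟨P, hP, hd, hinj, hg⟩ := exists_seq hA hS hmin hi
  have lin : ∀ {W : Type} [AddCommGroup W] [Module ℚ W] (l : V →ₗ[ℚ] W) (v : V),
      l v = x v • l e + η v • l f := fun l v => by
    rw [← map_smul, ← map_smul, ← map_add, ← hdec]
  have fib : ∀ v v', x v = x v' → v = v' + (η v - η v') • f := fun v v' h => by
    have h1 := hdec v
    rw [h] at h1
    linear_combination (norm := module) h1 - hdec v'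
  set N : ℕ → ℚ := fun k => |x (P k)| + |η (P k)| with hN
  have hbig : ∀ M : ℚ, ∀ᶠ k in UU, M < N k := fun M => by
    have : ∀ᶠ k in UU, ¬(x (P k) ∈ A ∩ {t | |t| ≤ M}) :=
      ((hA M).preimage hinj.injOn).compl_mem_hyperfilter
    exact this.mono fun k hk => by
      have : M < |x (P k)| := not_le.mp fun h => hk ⟨hS _ (hP k), h⟩
      exact this.trans_le (le_add_of_nonneg_right (abs_nonneg _))
  have hε : Tendsto (fun k => (((N k)⁻¹ : ℚ) : ℝ)) UU (𝓝 0) := by
    simp only [Rat.cast_inv]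
    refine tendsto_inv_atTop_zero.comp (tendsto_atTop.mpr fun M => ?_)
    obtain ⟨q, hq⟩ := exists_rat_gt M
    exact (hbig q).mono fun k hk => hq.le.trans (by exact_mod_cast hk.le)
  have bd : ∀ s t : ℚ, |s| ≤ t → |((t⁻¹ * s : ℚ) : ℝ)| ≤ 1 := fun s t h => by
    have : |t⁻¹ * s| ≤ 1 := by
      rw [abs_mul, abs_inv, abs_of_nonneg ((abs_nonneg _).trans h)]
      exact inv_mul_le_one_of_le₀ h ((abs_nonneg _).trans h)
    exact_mod_cast this
  obtain ⟨α, hα⟩ := exists_lim (fun k => (((N k)⁻¹ * x (P k) : ℚ) : ℝ)) fun k =>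
    bd _ _ (le_add_of_nonneg_right (abs_nonneg _))
  obtain ⟨β, hβ⟩ := exists_lim (fun k => (((N k)⁻¹ * η (P k) : ℚ) : ℝ)) fun k =>
    bd _ _ (le_add_of_nonneg_left (abs_nonneg _))
  have hαβ : |α| + |β| = 1 := by
    refine tendsto_nhds_unique (hα.abs.add hβ.abs) (tendsto_const_nhds.congr' ?_)
    refine (hbig 0).mono fun k hk => ?_
    have : (1 : ℚ) = |(N k)⁻¹ * x (P k)| + |(N k)⁻¹ * η (P k)| := by
      rw [abs_mul, abs_mul, ← mul_add, abs_of_pos (inv_pos.mpr hk), inv_mul_cancel₀ hk.ne']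
    beta_reduce
    exact_mod_cast this
  let lv : (V →ₗ[ℚ] ℚ) → ℝ := fun l => α * l e + β * l f
  let bv : (V →ₗ[ℚ] V →ₗ[ℚ] ℚ) → ℝ := fun g => α * lv (g e) + β * lv (g f)
  have key : ∀ Q, C.F Q = 0 → C.d Q ≠ 0 → bv (C.h Q) = 0 := by
    intro Q hQ hdQ
    by_contra hb
    set w : ℕ → V := fun k => (N k)⁻¹ • (P k - Q) with hw
    have t1 : Tendsto (fun k => ((x (w k) : ℚ) : ℝ)) UU (𝓝 α) := by
      simpa [hw, mul_sub] using hα.sub (hε.mul_const (x Q : ℝ))
    have t2 : Tendsto (fun k => ((η (w k) : ℚ) : ℝ)) UU (𝓝 β) := by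
      simpa [hw, mul_sub] using hβ.sub (hε.mul_const (η Q : ℝ))
    have t3 : ∀ l : V →ₗ[ℚ] ℚ, Tendsto (fun k => ((l (w k) : ℚ) : ℝ)) UU (𝓝 (lv l)) := fun l =>
      ((t1.mul_const (l e : ℝ)).add (t2.mul_const (l f : ℝ))).congr fun k => by
        rw [lin l (w k)]; simp
    set s : ℕ → ℚ := fun k => (N k)⁻¹ * C.d Q (w k) + C.h Q (w k) (w k) with hs
    have t4 : Tendsto (fun k => ((s k : ℚ) : ℝ)) UU (𝓝 (bv (C.h Q))) := by
      have := (hε.mul (t3 (C.d Q))).add ((t1.mul (t3 (C.h Q e))).add (t2.mul (t3 (C.h Q f))))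
      rw [zero_mul, zero_add] at this
      refine this.congr fun k => ?_
      rw [hs]
      simp only
      rw [lin (C.h Q) (w k)]
      simp
    have hs0 : ∀ᶠ k in UU, s k ≠ 0 := (t4.eventually_ne hb).mono fun k hk => by exact_mod_cast hk
    set R : ℕ → V := fun k => Q + (-C.d Q (w k) / s k) • w k with hR
    have hRS : ∀ᶠ k in UU, C.F (R k) = 0 := (hs0.and (hbig 0)).mono fun k hk => by
      have e1 := C.F_line Q (w k) (N k)
      have hN0 := hk.2.ne'
      have hs0 := hk.1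
      rw [show Q + N k • w k = P k by simp [hw, smul_smul, hN0], hP, hQ] at e1
      have e2 : C.c (w k) (w k) (w k) = -(N k)⁻¹ * s k := by
        refine mul_left_cancel₀ (pow_ne_zero 3 hN0) ?_
        rw [hs]; field_simp; linear_combination -(N k)⁻¹ * e1 - (C.d Q (w k) + N k *
          C.h Q (w k) (w k) + N k ^ 2 * C.c (w k) (w k) (w k)) * inv_mul_cancel₀ hN0
      have e3 : C.h Q (w k) (w k) = s k - (N k)⁻¹ * C.d Q (w k) := by rw [hs]; ring
      rw [hR]
      simp only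
      rw [C.F_line, hQ, e2, e3]
      field_simp
      ring
    have t5 : Tendsto (fun k => |((x (R k) : ℚ) : ℝ)|) UU (𝓝 _) :=
      (((((t3 (C.d Q)).neg.div t4 hb).mul t1).const_add (x Q : ℝ)).congr fun k => by
        simp [hR]).abs
    obtain ⟨M, hM⟩ := exists_rat_gt |(x Q : ℝ) + -lv (C.d Q) / bv (C.h Q) * α|
    obtain ⟨j, hj⟩ := ev_const (f := fun k => x (R k)) (hA M)
      ((hRS.and (t5.eventually (gt_mem_nhds hM))).mono fun k hk =>
        ⟨hS _ hk.1, by have := hk.2.le; exact_mod_cast this⟩)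
    obtain ⟨v1, hv1, hF1⟩ := hvert j
    have hRv : ∀ᶠ k in UU, R k = v1 + (η (R k) - η v1) • f :=
      hj.mono fun k hk => fib _ _ (hk.trans hv1.symm)
    obtain ⟨y, hy⟩ := ev_const (f := fun k => η (R k) - η v1)
      ((PL.F C).finite (v := v1) (w := f) (s0 := 0) (by simpa using hF1))
      ((hRS.and hRv).mono fun k hk => by show C.F _ = 0; rw [← hk.2]; exact hk.1)
    have hz : ∀ᶠ k in UU, (-C.d Q (w k) / s k) • w k = v1 + y • f - Q :=
      (hRv.and hy).mono fun k hk => by rw [← hk.2, ← hk.1]; simp [hR]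
    generalize v1 + y • f - Q = z at hz
    obtain ⟨l, hl, hlw⟩ : ∃ l : V →ₗ[ℚ] ℚ, l ≠ 0 ∧ ∀ᶠ k in UU, l (w k) = 0 := by
      by_cases h0 : z = 0
      · refine ⟨C.d Q, hdQ, (hz.and hs0).mono fun k hk => ?_⟩
        rcases smul_eq_zero.mp (hk.1.trans h0) with h | h
        · simpa [hk.2] using h
        · rw [h, map_zero]
      · refine ⟨η z • x - x z • η, fun h => h0 ?_, hz.mono fun k hk => ?_⟩
        · have h1 := LinearMap.congr_fun h e
          have h2 := LinearMap.congr_fun h f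
          simp [he, hf, hη, hη0] at h1 h2
          rw [hdec z, h1, h2]; simp
        · have : -C.d Q (w k) / s k ≠ 0 := fun h => h0 (by rw [← hk, h, zero_smul])
          refine mul_left_cancel₀ this ?_
          rw [← smul_eq_mul, ← map_smul, hk]
          simp [mul_comm]
    refine hg l hl (l Q) ((hlw.and (hbig 0)).mono fun k hk => ?_)
    have := hk.1
    simp only [hw, map_smul, map_sub, smul_eq_mul, mul_eq_zero, inv_eq_zero, hk.2.ne',
      false_or] at this
    linarith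
  have key2 : ∀ k, bv C.q + 3 * (x (P k) * bv (C.c e) + η (P k) * bv (C.c f)) = 0 := fun k => by
    rw [← key _ (hP k) (hd k)]
    simp only [bv, lv, C.h_apply, lin C.c (P k), LinearMap.add_apply, LinearMap.smul_apply,
      smul_eq_mul]
    push_cast
    ring
  have h01 : x (P 1) - x (P 0) ≠ 0 := sub_ne_zero.mpr (hinj.ne one_ne_zero)
  obtain ⟨k, hk⟩ := (Ultrafilter.eventually_not.mpr
    (hg ((η (P 1) - η (P 0)) • x - (x (P 1) - x (P 0)) • η)
      (fun h => h01 (by have := LinearMap.congr_fun h f; simp [hf, hη] at this; linarith))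
      ((η (P 1) - η (P 0)) * x (P 0) - (x (P 1) - x (P 0)) * η (P 0)))).exists
  simp only [LinearMap.sub_apply, LinearMap.smul_apply, smul_eq_mul] at hk
  have hk' : ((η (P 1) - η (P 0)) * (x (P k) - x (P 0)) -
      (x (P 1) - x (P 0)) * (η (P k) - η (P 0)) : ℝ) ≠ 0 := by
    intro h
    have : (η (P 1) - η (P 0)) * (x (P k) - x (P 0)) -
      (x (P 1) - x (P 0)) * (η (P k) - η (P 0)) = 0 := by exact_mod_cast h
    exact hk (by linear_combination this)
  have z1 : bv (C.c e) = 0 := mul_left_cancel₀ hk' (by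
    linear_combination ((η (P 1) : ℝ) - η (P 0)) / 3 * (key2 k - key2 0) -
      ((η (P k) : ℝ) - η (P 0)) / 3 * (key2 1 - key2 0))
  have z2 : bv (C.c f) = 0 := mul_left_cancel₀ hk' (by
    linear_combination ((x (P k) : ℝ) - x (P 0)) / 3 * (key2 1 - key2 0) -
      ((x (P 1) : ℝ) - x (P 0)) / 3 * (key2 k - key2 0))
  have z0 : bv C.q = 0 := by simpa [z1, z2] using key2 0
  have s1 : C.c e f e = C.c e e f := C.cs2 _ _ _
  have s2 : C.c f e e = C.c e e f := by rw [C.cs1, s1]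
  have s3 : C.c f e f = C.c e f f := C.cs1 _ _ _
  have s4 : C.c f f e = C.c e f f := by rw [C.cs2, s3]
  obtain ⟨p, r, hpr, hrel⟩ := rat_rel (a := C.c e e e) (b := C.c e e f) (c := C.c e f f)
    (d := C.c f f f) (α := α) (β := β)
    (by simp only [bv, lv, s1] at z1; linear_combination z1)
    (by simp only [bv, lv, s2, s3, s4] at z2; linear_combination z2) fun h => hc (by
      rw [lin C.c v0]
      simp only [LinearMap.add_apply, LinearMap.smul_apply, lin (C.c e) v0, lin (C.c f) v0,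
        lin (C.c _ _) v0, s1, s2, s3, s4, h.1, h.2.1, h.2.2.1, h.2.2.2]
      simp)
  set u := r • e - p • f with hu
  have hgu : ∀ g, bv g = 0 → g u u = 0 := fun g h => by
    have e1 : ((g u u : ℚ) : ℝ) = r ^ 2 * g e e - r * p * (g e f + g f e) + p ^ 2 * g f f := by
      simp [hu]; ring
    simp only [bv, lv] at h
    have e2 : |α| * |α| * g u u = 0 := by
      rw [abs_mul_abs_self, e1]
      linear_combination r ^ 2 * h - (r * α * (g e f + g f e) + (r * β - p * α) * g f f) * hrel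
    have e3 : |β| * |β| * g u u = 0 := by
      rw [abs_mul_abs_self, e1]
      linear_combination p ^ 2 * h - (p * β * (g e f + g f e) + (p * α - r * β) * g e e) * hrel
    by_contra h0
    have h0 : ((g u u : ℚ) : ℝ) ≠ 0 := by exact_mod_cast h0
    rw [mul_eq_zero, mul_self_eq_zero, or_iff_left h0] at e2 e3
    linarith
  have hcu : ∀ Q, C.c Q u u = 0 := fun Q => by
    rw [lin C.c Q]; simp [hgu _ z1, hgu _ z2]
  have hline : ∀ Q (t : ℚ), C.F (Q + t • u) = C.F Q + t * C.d Q u := fun Q t => by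
    rw [C.F_line, C.h_apply, hcu, hcu, hgu _ z0]; ring
  have hG : PL fun Q => C.d Q u := by
    have := ((PL.const (C.l u)).add ((PL.const 2).mul (PL.lin (C.q u)))).add
      ((PL.const 3).mul (PL.bil (C.c u)))
    convert this using 2 with Q
    rw [C.d_apply, C.qs, C.cs2, C.cs1]
  have hG0 : ∀ k, C.d (P k) u ≠ 0 := fun k h0 => by
    have h1 : ∀ t : ℚ, C.F (P k + t • u) = 0 := fun t => by rw [hline, hP, h0]; ring
    have h2 : r = 0 := hA.no_line (a := x (P k)) fun t => by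
      simpa [hu, he, hf] using hS _ (h1 t)
    have h3 : p ≠ 0 := hpr.resolve_right (not_not.mpr h2)
    obtain ⟨v, hv, hF⟩ := hvert (x (P k))
    refine hF ?_
    rw [← h1 ((η (P k) - η v) / p), hu, h2, zero_smul, zero_sub, smul_neg, smul_smul,
      div_mul_cancel₀ _ h3]
    rw [← neg_smul, neg_sub, ← fib _ _ hv]
  rcases hA.ratio (((PL.lin x).mul hG).sub ((PL.const (x u)).mul (PL.F C))) hG (fun Q hQ => by
    have := hS (Q + (-C.F Q / C.d Q u) • u) (by rw [hline]; field_simp; ring)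
    convert this using 1
    simp only [map_add, map_smul, smul_eq_mul]
    field_simp
    ring) with h | ⟨m, h⟩
  · exact hG0 0 (h _)
  · have : ∀ k, x (P k) = m := fun k => mul_right_cancel₀ (hG0 k) (by simpa [hP] using h (P k))
    exact h01 (by rw [this, this, sub_self])

end Pool.Agent.MP_28f2cb_lc.H35
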